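import Mathlib
import Pool.Agent.W151.TreeEnd

set_option autoImplicit false

/-! # Subtrees on all but one vertex versus spanning trees

For every graph `G` on `n` vertices, `s_{n-1}(G) ≥ c_n s_n(G)` with
`c_n = ((n-1)/n)^(n-3) = s_{n-1}(K_n)/s_n(K_n)`. -/

namespace Pool.Agent.Results.MP_8211ad_co.AlmostSpanning

open Pool.Agent.W151

/-- The number of subtrees of `G` (subgraphs that are trees) with exactly `k` vertices. -/
noncomputable def numSubtrees {V : Type} (G : SimpleGraph V) (k : ℕ) : ℕ :=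
  Set.ncard {H : G.Subgraph | H.coe.IsTree ∧ H.verts.ncard = k}

/-- The constant `c_n = ((n-1)/n)^(n-3)` (integer exponent, so `c_2 = 2`). -/
noncomputable def c (n : ℕ) : ℝ := (((n : ℝ) - 1) / (n : ℝ)) ^ ((n : ℤ) - 3)

lemma c_eq {n : ℕ} (hn : 2 ≤ n) :
    c n = ((n.choose (n - 1) : ℕ) * (TreeNum.a (n - 1) : ℝ)) /
      ((n.choose n : ℕ) * (TreeNum.a n : ℝ)) := by
  unfold c TreeNum.a
  rcases Nat.lt_or_ge n 3 with h | h
  · have : n = 2 := by omega
    subst this
    norm_num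
  · obtain ⟨m, rfl⟩ : ∃ m, n = m + 3 := ⟨n - 3, by omega⟩
    have h1 : (((m + 3 : ℕ) : ℤ) - 3) = (m : ℤ) := by push_cast; ring
    rw [h1, zpow_natCast]
    have h2 : (m + 3).choose (m + 3 - 1) = m + 3 := by
      rw [show m + 3 - 1 = m + 2 by omega]
      exact Nat.choose_succ_self_right (m + 2)
    rw [h2, Nat.choose_self]
    rw [show m + 3 - 1 - 2 = m by omega, show m + 3 - 2 = m + 1 by omega,
      show m + 3 - 1 = m + 2 by omega]
    push_cast
    have h3 : ((m : ℝ) + 3) ≠ 0 := by positivity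
    rw [show (m : ℝ) + 3 - 1 = m + 2 by ring, div_pow]
    field_simp
    ring

/-- **Main theorem.** For every `n ≥ 2` the constant `c n = ((n-1)/n)^(n-3)` is the ratio
`s_{n-1}(K_n)/s_n(K_n)`, and every graph `G` on `n` vertices satisfies
`s_{n-1}(G) ≥ c n * s_n(G)`. -/
theorem result : ∀ n : ℕ, 2 ≤ n →
    c n = (numSubtrees (⊤ : SimpleGraph (Fin n)) (n - 1) : ℝ) /
        (numSubtrees (⊤ : SimpleGraph (Fin n)) n : ℝ) ∧
    ∀ G : SimpleGraph (Fin n),
      (numSubtrees G (n - 1) : ℝ) ≥ c n * (numSubtrees G n : ℝ) := by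
  intro n hn
  have hs : ∀ (G : SimpleGraph (Fin n)) (k : ℕ), (numSubtrees G k : ℝ) = TreeIneq.s G k :=
    fun G k => TreeIneq.s_eq G k
  have t1 : TreeIneq.s (⊤ : SimpleGraph (Fin n)) (n - 1) =
      (n.choose (n - 1) : ℕ) * (TreeNum.a (n - 1) : ℝ) := by
    rw [TreeIneq.s_top (by omega : 1 ≤ n - 1), Fintype.card_fin]
  have t2 : TreeIneq.s (⊤ : SimpleGraph (Fin n)) n =
      (n.choose n : ℕ) * (TreeNum.a n : ℝ) := by
    rw [TreeIneq.s_top (by omega : 1 ≤ n), Fintype.card_fin]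
  have hc : c n = TreeIneq.s (⊤ : SimpleGraph (Fin n)) (n - 1) /
      TreeIneq.s (⊤ : SimpleGraph (Fin n)) n := by
    rw [c_eq hn, t1, t2]
  have p1 : 0 < TreeIneq.s (⊤ : SimpleGraph (Fin n)) (n - 1) := by
    rw [t1]
    have h1 : 0 < n.choose (n - 1) := Nat.choose_pos (by omega)
    have h2 : 0 < TreeNum.a (n - 1) := TreeNum.a_pos (by omega)
    positivity
  have p2 : 0 < TreeIneq.s (⊤ : SimpleGraph (Fin n)) n := by
    rw [t2]
    have h1 : 0 < n.choose n := Nat.choose_pos le_rfl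
    have h2 : 0 < TreeNum.a n := TreeNum.a_pos (by omega)
    positivity
  refine ⟨?_, ?_⟩
  · rw [hs, hs]; exact hc
  · intro G
    rw [hs, hs, hc, ge_iff_le]
    have h := TreeIneq.ratio_anti G (k := n - 1) (by omega)
      (by rw [Fintype.card_fin]; omega)
    rw [show n - 1 + 1 = n by omega, div_le_div_iff₀ p2 p1] at h
    rw [div_mul_eq_mul_div, div_le_iff₀ p2]
    linarith

end Pool.Agent.Results.MP_8211ad_co.AlmostSpanning
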